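import Pool.Agent.N295.SR.Stm3

/-!
# Spheres of revolution: small eigenvalues
-/

set_option autoImplicit false

open MeasureTheory Set Real Filter Topology

namespace Pool.Agent.N383.SR

open Pool.Agent.N273.LT (Alt sc)
open Pool.Agent.Y291.DB (Sol um)
open Pool.Agent.N295.SR

theorem Sol_neg {q : ℝ → ℝ} {φ φx φxx φy φyy : ℝ → ℝ → ℝ} (h : Sol q φ φx φxx φy φyy) :
    Sol (fun x => q (-x)) (fun x y => φ (-x) y) (fun x y => -φx (-x) y)
      (fun x y => φxx (-x) y) (fun x y => φy (-x) y) (fun x y => φyy (-x) y) := by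
  have hc : Continuous (fun z : ℝ × ℝ => ((-z.1, z.2) : ℝ × ℝ)) := by fun_prop
  refine ⟨h.qc.comp continuous_neg, h.c.comp hc, (h.cx.comp hc).neg, h.cxx.comp hc,
    h.cy.comp hc, h.cyy.comp hc, fun x y => ?_, fun x y => ?_, fun x y => h.dy (-x) y,
    fun x y => h.dyy (-x) y, fun x y => h.pde (-x) y⟩
  · have := (h.dx (-x) y).scomp x (hasDerivAt_neg x)
    simpa [Function.comp_def] using this
  · have := ((h.dxx (-x) y).scomp x (hasDerivAt_neg x)).fun_neg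
    simpa [Function.comp_def] using this

theorem Cyl_neg {q : ℝ → ℝ} {K : ℕ} {φ φx φxx φy φyy : ℝ → ℝ → ℝ}
    (h : Cyl q K φ φx φxx φy φyy) :
    Cyl (fun x => q (-x)) K (fun x y => φ (-x) y) (fun x y => -φx (-x) y)
      (fun x y => φxx (-x) y) (fun x y => φy (-x) y) (fun x y => φyy (-x) y) := by
  refine ⟨Sol_neg h.s, fun x y => h.per (-x) y, ?_, fun x k hk => h.modes (-x) k hk⟩
  obtain ⟨B, hB⟩ := h.bdd
  exact ⟨B, fun x y => hB (-x) y⟩

theorem Cnt_neg {φ : ℝ → ℝ → ℝ} {Z : ℝ} (h : Cnt φ Z) : Cnt (fun x y => φ (-x) y) Z := by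
  refine ⟨fun x a b n hab hA => h.a (-x) a b n hab hA, fun y n hA => h.b y n ?_⟩
  obtain ⟨t, h1, -, h3⟩ := hA
  refine ⟨fun i => -t (n - i), fun i hi => ?_, fun _ _ => mem_univ _, fun i hi => ?_⟩
  · have := h1 (n - (i + 1)) (by omega)
    rw [show n - (i + 1) + 1 = n - i by omega] at this
    simpa using this
  · have := h3 (n - (i + 1)) (by omega)
    rw [show n - (i + 1) + 1 = n - i by omega] at this
    dsimp only at this ⊢
    rw [mul_comm]
    exact this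

theorem refl_sub (hNP : S_NP) (p q : E3) : ‖refl p - refl q‖ = ‖p - q‖ := by
  have h : refl p - refl q = refl (p - q) := by
    ext i
    fin_cases i <;> simp [Pool.Agent.N295.SR.refl] <;> ring
  rw [h, hNP.2.2.2.2.2.2.1]

theorem near_np (hNP : S_NP) {s t : ℝ} (hst : s ≤ t) (θ : ℝ) :
    ‖merc t θ - np‖ ≤ 2 * Real.exp (-s) := by
  have h1 := hNP.1 t θ
  have h2 : ‖merc t θ - np‖ ^ 2 ≤ (2 * Real.exp (-s)) ^ 2 := by
    rw [h1, mul_pow, ← Real.exp_nat_mul, div_le_iff₀ (by positivity)]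
    have h3 : Real.exp ((2 : ℕ) * -s) * Real.exp (2 * s) = 1 := by
      rw [← Real.exp_add]; simp
    have h4 : Real.exp (2 * s) ≤ Real.exp (2 * t) := Real.exp_le_exp.2 (by linarith)
    have h5 : 0 < Real.exp ((2 : ℕ) * -s) := Real.exp_pos _
    nlinarith
  have := abs_le_of_sq_le_sq h2 (by positivity)
  rwa [abs_of_nonneg (norm_nonneg _)] at this

theorem norm_merc (hBIN : S_BIN) {ρ : ℝ → ℝ} {ρm ρM : ℝ} (hM : Met ρ ρm ρM) (t θ : ℝ) :
    ‖merc t θ‖ = 1 := by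
  have := hBIN ρ ρm ρM hM t θ t θ 0 1 le_rfl zero_le_one (by simp) (by simp)
    (by simpa using Real.cosh_pos t)
  exact this.1

theorem box (hNP : S_NP) (hBIN : S_BIN) (hDUP : S_DUP) {ρm ρM R0 T0 b : ℝ}
    (hR0 : 0 < R0) (hT0 : 1 ≤ T0)
    (h2 : π / 2 * Real.sqrt ρM * (2 * (Real.exp 1 + 1) * Real.exp (-T0)) < R0) (hb0 : 0 < b)
    (hb1 : b ≤ 1) (hb : 4 * b * Real.sqrt ρM < R0) {ρ : ℝ → ℝ} (hM : Met ρ ρm ρM) {R : ℝ}
    (hR : R0 ≤ R) (p : E3) (hp : ‖p‖ = 1) : ∃ tb thb : ℝ, (-T0 ≤ tb ∧ tb ≤ T0) ∧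
      (0 ≤ thb ∧ thb ≤ 2 * π) ∧
      ∀ t' θ', |t' - tb| ≤ b → |θ' - thb| ≤ b → merc t' θ' ∈ disc ρ p R := by
  have hup : ∀ p q : E3, ‖p‖ = 1 → ‖q‖ = 1 → gdist ρ p q ≤ π / 2 * Real.sqrt ρM * ‖p - q‖ :=
    hDUP ρ ρM hM.c (fun z => hM.pos.trans_le (hM.lo z)) hM.hi
  have hnm := norm_merc hBIN hM
  have hexp : Real.exp (-(T0 - 1)) = Real.exp 1 * Real.exp (-T0) := by
    rw [← Real.exp_add]; ring_nf
  -- the discs near the north pole
  have hN : ∀ p : E3, ‖p‖ = 1 → ‖p - np‖ ≤ 2 * Real.exp (-T0) → ∀ t' θ', |t' - T0| ≤ b →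
      ‖p - merc t' θ'‖ ≤ 2 * (Real.exp 1 + 1) * Real.exp (-T0) := by
    intro p hp hpn t' θ' ht
    have h3 : T0 - 1 ≤ t' := by
      have := (abs_le.1 ht).1
      linarith
    have h4 := near_np hNP h3 θ'
    rw [hexp] at h4
    calc ‖p - merc t' θ'‖ ≤ ‖p - np‖ + ‖np - merc t' θ'‖ := norm_sub_le_norm_sub_add_norm_sub _ _ _
      _ ≤ 2 * Real.exp (-T0) + 2 * (Real.exp 1 * Real.exp (-T0)) := by
          rw [norm_sub_rev np]
          exact add_le_add hpn h4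
      _ = _ := by ring
  have hlt : ∀ p q : E3, ‖p‖ = 1 → ‖q‖ = 1 →
      ‖p - q‖ ≤ 2 * (Real.exp 1 + 1) * Real.exp (-T0) → gdist ρ p q < R := by
    intro p q hp hq hpq
    refine lt_of_lt_of_le (lt_of_le_of_lt (hup p q hp hq) ?_) hR
    refine lt_of_le_of_lt ?_ h2
    exact mul_le_mul_of_nonneg_left hpq (by positivity)
  have hnorth : ‖p - np‖ ≤ 2 * Real.exp (-T0) → ∀ thb : ℝ, 0 ≤ thb → thb ≤ 2 * π →
      ∃ tb thb : ℝ, (-T0 ≤ tb ∧ tb ≤ T0) ∧ (0 ≤ thb ∧ thb ≤ 2 * π) ∧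
      ∀ t' θ', |t' - tb| ≤ b → |θ' - thb| ≤ b → merc t' θ' ∈ disc ρ p R := by
    intro hpn thb h3 h4
    refine ⟨T0, thb, ⟨by linarith, le_rfl⟩, ⟨h3, h4⟩, fun t' θ' ht _ => ⟨hnm _ _, ?_⟩⟩
    exact hlt _ _ hp (hnm _ _) (hN p hp hpn t' θ' ht)
  have hsouth : ‖refl p - np‖ ≤ 2 * Real.exp (-T0) → ∀ thb : ℝ, 0 ≤ thb → thb ≤ 2 * π →
      ∃ tb thb : ℝ, (-T0 ≤ tb ∧ tb ≤ T0) ∧ (0 ≤ thb ∧ thb ≤ 2 * π) ∧
      ∀ t' θ', |t' - tb| ≤ b → |θ' - thb| ≤ b → merc t' θ' ∈ disc ρ p R := by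
    intro hpn thb h3 h4
    refine ⟨-T0, thb, ⟨le_rfl, by linarith⟩, ⟨h3, h4⟩, fun t' θ' ht _ => ⟨hnm _ _, ?_⟩⟩
    refine hlt _ _ hp (hnm _ _) ?_
    have h5 : ‖p - merc t' θ'‖ = ‖refl p - merc (-t') θ'‖ := by
      rw [← refl_sub hNP, hNP.2.2.2.2.1]
    rw [h5]
    refine hN (refl p) (by rw [hNP.2.2.2.2.2.2.1, hp]) hpn (-t') θ' ?_
    rw [← abs_neg]
    convert ht using 2
    ring
  rcases hNP.2.2.1 p hp with rfl | h | ⟨t, θ, h3, h4, rfl⟩
  · exact hnorth (by simp [Real.exp_pos (-T0) |>.le]) 0 le_rfl (by positivity)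
  · refine hsouth ?_ 0 le_rfl (by positivity)
    rw [h, hNP.2.2.2.2.2.1, sub_self, norm_zero]
    positivity
  · rcases lt_or_ge T0 t with h5 | h5
    · exact hnorth (near_np hNP h5.le θ) θ h3 h4.le
    · rcases lt_or_ge t (-T0) with h6 | h6
      · refine hsouth ?_ θ h3 h4.le
        rw [hNP.2.2.2.2.1]
        exact near_np hNP (by linarith) θ
      · refine ⟨t, θ, ⟨h6, h5⟩, ⟨h3, h4.le⟩, fun t' θ' ht hθ => ?_⟩
        refine hBIN ρ ρm ρM hM t θ t' θ' b R hb0.le hb1 ht hθ ?_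
        have h7 : 1 ≤ Real.cosh t := Real.one_le_cosh t
        have h8 : 0 < R := hR0.trans_le hR
        nlinarith

theorem SMALL : S_BIN → S_NP → S_DOUB → S_POT → S_CE → S_ANN → S_CAP → S_BOX → S_DUP →
    S_SMALL := by
  intro hBIN hNP hDOUB hPOT hCE hANN _ hBOX hDUP ρm ρM C C₁ Λ hρm hρM hC hC₁ hΛ
  obtain ⟨Z₀, hZ₀, hCE⟩ := hCE
  set R0 : ℝ := C / Real.sqrt Λ with hR0
  have hR00 : 0 < R0 := by positivity
  set T0 : ℝ := 1 + 32 * Λ * ρM + π * Real.sqrt ρM * (Real.exp 1 + 1) / R0 with hT0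
  have hT01 : 1 ≤ T0 := by
    have : 0 ≤ 32 * Λ * ρM + π * Real.sqrt ρM * (Real.exp 1 + 1) / R0 := by positivity
    linarith
  have hexpT : T0 < Real.exp T0 := by
    have := Real.add_one_le_exp T0
    linarith
  have h1 : 32 * Λ * ρM ≤ Real.exp (2 * T0) := by
    have h3 : Real.exp T0 ≤ Real.exp (2 * T0) := Real.exp_le_exp.2 (by linarith)
    have h4 : 0 ≤ π * Real.sqrt ρM * (Real.exp 1 + 1) / R0 := by positivity
    linarith
  have h2 : π / 2 * Real.sqrt ρM * (2 * (Real.exp 1 + 1) * Real.exp (-T0)) < R0 := by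
    have h3 : π * Real.sqrt ρM * (Real.exp 1 + 1) / R0 < Real.exp T0 := by
      have : 0 ≤ 32 * Λ * ρM := by positivity
      linarith
    rw [div_lt_iff₀ hR00] at h3
    rw [Real.exp_neg]
    have h4 : 0 < Real.exp T0 := Real.exp_pos _
    have h5 : π / 2 * Real.sqrt ρM * (2 * (Real.exp 1 + 1) * (Real.exp T0)⁻¹) =
        π * Real.sqrt ρM * (Real.exp 1 + 1) / Real.exp T0 := by
      field_simp
    rw [h5, div_lt_iff₀ h4]
    linarith
  set b : ℝ := min 1 (R0 / (8 * (Real.sqrt ρM + 1))) with hb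
  have hb0 : 0 < b := by positivity
  have hb1 : b ≤ 1 := min_le_left _ _
  have hb4 : 4 * b * Real.sqrt ρM < R0 := by
    have h3 : b ≤ R0 / (8 * (Real.sqrt ρM + 1)) := min_le_right _ _
    rw [le_div_iff₀ (by positivity)] at h3
    have h4 : 0 ≤ Real.sqrt ρM := Real.sqrt_nonneg _
    nlinarith [mul_nonneg hb0.le h4]
  obtain ⟨C', hC', hANN⟩ := hANN (Λ * ρM) (2 * T0) b (by positivity) (by positivity) hb0
  set K0 : ℝ := Real.sqrt (4 * Λ * ρM) with hK0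
  set Z1 : ℝ := Z₀ * (1 + K0) with hZ1
  set E : ℝ := Real.log (4 * (K0 + 1)) + C' * (1 + Z1) with hE
  have hK00 : 0 ≤ K0 := Real.sqrt_nonneg _
  have hE0 : 0 ≤ E := by
    have : 0 ≤ Real.log (4 * (K0 + 1)) := Real.log_nonneg (by linarith)
    positivity
  have hexpE : Real.exp E = 4 * (K0 + 1) * Real.exp (C' * (1 + Z1)) := by
    rw [hE, Real.exp_add, Real.exp_log (by positivity)]
  refine ⟨C₁ * ((T0 - -T0 + 2) * (2 * π + 2)) / (2 * b) ^ 2 * (E / Real.log 2) + 1, ?_, ?_⟩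
  · have : 0 < Real.log 2 := Real.log_pos (by norm_num)
    have : 0 ≤ T0 - -T0 + 2 := by linarith
    positivity
  intro ρ lam φ hM hφ hlam ι _ c hc hmult
  have hlam0 := hφ.pos
  set R : ℝ := C / Real.sqrt lam with hRdef
  have hR : R0 ≤ R := by
    have h3 : Real.sqrt lam ≤ Real.sqrt Λ := Real.sqrt_le_sqrt hlam
    have h4 : 0 < Real.sqrt lam := Real.sqrt_pos.2 hlam0
    exact div_le_div_of_nonneg_left hC.le h4 h3
  obtain ⟨K, φx, φxx, φy, φyy, hK, hcyl, hcnt⟩ := hCE ρ ρm ρM lam φ hM hφ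
  have hlamle : 4 * lam * ρM ≤ 4 * Λ * ρM :=
    mul_le_mul_of_nonneg_right (by linarith) hρM.le
  have hKle : (K : ℝ) ≤ K0 := hK.trans (Real.sqrt_le_sqrt hlamle)
  set Z : ℝ := Z₀ * (1 + Real.sqrt (4 * lam * ρM)) with hZ
  have hZ0 : 0 ≤ Z := by positivity
  have hZle : Z ≤ Z1 := by
    have h3 := Real.sqrt_le_sqrt hlamle
    rw [hZ, hZ1]
    exact mul_le_mul_of_nonneg_left (by linarith) hZ₀.le
  have hpot : ∀ x, |pot ρ lam x| ≤ Λ * ρM := by
    intro x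
    obtain ⟨a1, a2, -, -⟩ := hPOT ρ ρm ρM lam x hM hlam0
    rw [abs_of_nonneg a1]
    exact a2.trans (by gcongr)
  have hpot2 : ∀ x, T0 ≤ |x| → 0 ≤ pot ρ lam x ∧
      pot ρ lam x ≤ Real.exp (-2 * (|x| - T0)) / 8 := by
    intro x hx
    obtain ⟨a1, -, a3, -⟩ := hPOT ρ ρm ρM lam x hM hlam0
    refine ⟨a1, a3.trans ?_⟩
    have h3 : Real.exp (-2 * (|x| - T0)) = Real.exp (-2 * |x|) * Real.exp (2 * T0) := by
      rw [← Real.exp_add]; ring_nf
    rw [h3]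
    have h5 : 0 < Real.exp (-2 * |x|) := Real.exp_pos _
    nlinarith
  -- the growth
  have hgrow : ∀ p : E3, ‖p‖ = 1 → ∀ κ : ℝ, (∀ q ∈ disc ρ p R, |φ q| ≤ κ) →
      ∀ q : E3, ‖q‖ = 1 → |φ q| ≤ κ * Real.exp E := by
    intro p hp κ hκ
    obtain ⟨tb, thb, ⟨ht1, ht2⟩, -, hbox⟩ :=
      box hNP hBIN hDUP hR00 hT01 h2 hb0 hb1 hb4 hM hR p hp
    have hκ0 : 0 ≤ κ := (abs_nonneg _).trans (hκ _ (hbox tb thb (by simpa using hb0.le)
      (by simpa using hb0.le)))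
    have hle : κ * (4 * (K + 1)) * Real.exp (C' * (1 + Z)) ≤ κ * Real.exp E := by
      rw [hexpE, mul_assoc κ]
      gcongr
    have hright : ∀ x y, -T0 ≤ x → |φ (merc x y)| ≤ κ * Real.exp E := by
      intro x y hx
      refine (hANN (pot ρ lam) K _ φx φxx φy φyy Z (-T0) T0 hcyl hcnt hZ0 (by linarith)
        (by linarith) (fun x _ => hpot x) (fun x hx => ?_) tb thb κ ht1 ht2
        (fun x' y' h3 h4 => hκ _ (hbox x' y' h3 h4)) x y hx).trans hle
      have := hpot2 x (hx.trans (le_abs_self x))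
      rwa [abs_of_nonneg (by linarith : (0 : ℝ) ≤ x)] at this
    have hleft : ∀ x y, -T0 ≤ x → |φ (merc (-x) y)| ≤ κ * Real.exp E := by
      intro x y hx
      refine (hANN (fun x => pot ρ lam (-x)) K _ _ _ _ _ Z (-T0) T0 (Cyl_neg hcyl)
        (Cnt_neg hcnt) hZ0 (by linarith)
        (by linarith) (fun x _ => hpot (-x)) (fun x hx => ?_) (-tb) thb κ (by linarith)
        (by linarith) (fun x' y' h3 h4 => hκ _ (hbox (-x') y' ?_ h4)) x y hx).trans hle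
      · have := hpot2 (-x) (by rw [abs_neg]; exact hx.trans (le_abs_self x))
        rwa [abs_neg, abs_of_nonneg (by linarith : (0 : ℝ) ≤ x)] at this
      · rw [← abs_neg]
        convert h3 using 2
        ring
    have hall : ∀ x y, |φ (merc x y)| ≤ κ * Real.exp E := by
      intro x y
      rcases le_total (-T0) x with h3 | h3
      · exact hright x y h3
      · have := hleft (-x) y (by linarith)
        rwa [neg_neg] at this
    -- the poles
    have hnp1 : ‖np‖ = 1 := hNP.2.2.2.2.2.2.2.1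
    have hpole : ∀ (F : ℝ → E3) (p : E3), ‖p‖ = 1 → (∀ t, ‖F t‖ = 1) →
        Tendsto F atTop (𝓝 p) → (∀ t, |φ (F t)| ≤ κ * Real.exp E) → |φ p| ≤ κ * Real.exp E := by
      intro F p hp hF hlim hb
      have h3 : Tendsto F atTop (𝓝[Metric.sphere 0 1] p) :=
        tendsto_nhdsWithin_iff.2 ⟨hlim, Eventually.of_forall fun t => by simp [hF t]⟩
      have h4 : Tendsto (fun t => φ (F t)) atTop (𝓝 (φ p)) :=
        (hφ.cont p (by simp [hp])).tendsto.comp h3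
      exact le_of_tendsto h4.abs (Eventually.of_forall hb)
    have hnm := norm_merc hBIN hM
    intro q hq
    rcases hNP.2.2.1 q hq with rfl | h | ⟨t, θ, -, -, rfl⟩
    · exact hpole (fun t => merc t 0) np hnp1 (fun t => hnm t 0) (hNP.2.2.2.1 0)
        (fun t => hall t 0)
    · have h3 : Tendsto (fun t => refl (merc t 0)) atTop (𝓝 (refl np)) :=
        (hNP.2.2.2.2.2.2.2.2.tendsto np).comp (hNP.2.2.2.1 0)
      rw [h]
      refine hpole (fun t => refl (merc t 0)) (refl np) (by rw [← h, hq])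
        (fun t => by rw [hNP.2.2.2.2.2.2.1, hnm]) h3 (fun t => ?_)
      rw [hNP.2.2.2.2.1]
      exact hall _ _
    · exact hall t θ
  have hdoub : ∀ i, max (doubling ρ φ (c i) R) 0 ≤ E / Real.log 2 := by
    intro i
    refine max_le (hDOUB ρ φ (c i) R E hφ.cont hE0 fun κ hκ q hq =>
      hgrow (c i) (hc i) κ hκ q hq.1) ?_
    have : 0 < Real.log 2 := Real.log_pos (by norm_num)
    positivity
  -- the number of discs
  choose tb thb h3 h4 h5 using fun i =>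
    box hNP hBIN hDUP hR00 hT01 h2 hb0 hb1 hb4 hM hR (c i) (hc i)
  have hcard := hBOX (-T0) T0 b C₁ ι (fun i => (tb i, thb i)) hb0 hb1 (by linarith)
    h3 h4 (fun x y => by
      refine le_trans ?_ (hmult (merc x y) (norm_merc hBIN hM x y))
      have : {i | |x - (tb i, thb i).1| ≤ b ∧ |y - (tb i, thb i).2| ≤ b} ⊆
          {i | merc x y ∈ disc ρ (c i) R} := fun i hi => h5 i x y hi.1 hi.2
      exact_mod_cast Set.ncard_le_ncard this (Set.toFinite _))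
  have hlog : 0 < Real.log 2 := Real.log_pos (by norm_num)
  calc ∑ i, max (doubling ρ φ (c i) R) 0 ≤ ∑ _i : ι, E / Real.log 2 :=
        Finset.sum_le_sum fun i _ => hdoub i
    _ = Fintype.card ι * (E / Real.log 2) := by simp
    _ ≤ C₁ * ((T0 - -T0 + 2) * (2 * π + 2)) / (2 * b) ^ 2 * (E / Real.log 2) := by
        gcongr
        rw [le_div_iff₀ (by positivity)]
        exact hcard
    _ ≤ _ := by linarith

end Pool.Agent.N383.SR
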